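import Pool.Agent.Helper25.KK.DataZero
import Pool.Agent.Helper25.BD.Abs

/-!
# Greenberg's theorem over a ring of characteristic zero with Newton's lemma
-/

set_option autoImplicit false

namespace ZC

open Filter Polynomial

section Main

/-- A ring with a prime `t` in which Newton's lemma holds. -/
structure NewtonRingZero {R : Type*} [CommRing R] (t : R) : Prop where
  prime : Prime t
  sep : ∀ x : R, (∀ m : ℕ, t ^ m ∣ x) → x = 0
  unit : ∀ x : R, ¬ t ∣ x → IsUnit x
  newton : ∀ (P : Polynomial R) (θ : R) (m₀ m : ℕ), ¬ t ^ m₀ ∣ P.derivative.eval θ →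
    2 * m₀ ≤ m → t ^ m ∣ P.eval θ → ∃ θ' : R, P.eval θ' = 0 ∧ t ^ (m - m₀) ∣ θ' - θ

variable {R : Type*} [CommRing R] [IsDomain R] {t : R}

omit [IsDomain R] in
lemma dvd_pow_of_not_dvd_zero (hR : NewtonRingZero t) {a : ℕ} {x : R} (h : ¬ t ^ a ∣ x) :
    x ∣ t ^ a := by
  obtain ⟨k, hk, x', rfl, hx'⟩ := exists_pow_mul h
  have h1 := hR.unit x' hx'
  exact (h1.mul_right_dvd.2 dvd_rfl).trans (pow_dvd_pow t hk.le)

/-- **Greenberg's theorem** over a ring of characteristic zero with Newton's lemma. -/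
theorem greenberg_abs_zero (hR : NewtonRingZero t) [CharZero R] {I S : Type*} [Finite I]
    [Finite S] (f : I → MvPolynomial S R) (x : ℕ → S → R)
    (hx : ∀ i a, t ^ i ∣ MvPolynomial.eval (x i) (f a)) (c : ℕ) :
    ∃ i : ℕ, c ≤ i ∧ ∃ y : S → R, (∀ a, MvPolynomial.eval y (f a) = 0) ∧
      ∀ s, t ^ c ∣ y s - x i s := by
  classical
  have := Fintype.ofFinite I
  have := Fintype.ofFinite S
  obtain ⟨ev, hev⟩ : ∃ ev : ℕ → MvPolynomial S R →+* R, ev = fun i => MvPolynomial.eval (x i) :=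
    ⟨_, rfl⟩
  have hprime : (germ t ev).IsPrime := germ_prime hR.prime ev
  -- constants are not germs of zero
  have hconst : ∀ r : R, MvPolynomial.C r ∈ germ t ev → r = 0 := by
    intro r hr
    apply hR.sep
    intro m
    obtain ⟨i, hi⟩ := (hr m).exists
    rw [hev] at hi
    simpa using hi
  -- the function field
  let Q := MvPolynomial S R ⧸ germ t ev
  have : IsDomain Q := Ideal.Quotient.isDomain _
  let K := FractionRing Q
  let L := FractionRing R
  have hQ : Function.Injective (algebraMap R Q) := by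
    rw [injective_iff_map_eq_zero]
    intro r hr
    apply hconst
    rw [← Ideal.Quotient.eq_zero_iff_mem]
    exact hr
  have hK : Function.Injective (algebraMap R K) := by
    rw [IsScalarTower.algebraMap_eq R Q K]
    exact (IsFractionRing.injective Q K).comp hQ
  have : FaithfulSMul R K := (faithfulSMul_iff_algebraMap_injective _ _).2 hK
  let algLK : Algebra L K := FractionRing.liftAlgebra R K
  have towerL : IsScalarTower R L K := FractionRing.isScalarTower_liftAlgebra R K
  let z : S → K := fun n => algebraMap Q K (Ideal.Quotient.mk (germ t ev) (MvPolynomial.X n))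
  have hzq : ∀ g : MvPolynomial S R, MvPolynomial.aeval z g =
      algebraMap Q K (Ideal.Quotient.mk (germ t ev) g) := by
    intro g
    have h1 : (MvPolynomial.aeval z : MvPolynomial S R →ₐ[R] K).toRingHom =
        (algebraMap Q K).comp (Ideal.Quotient.mk (germ t ev)) := by
      apply MvPolynomial.ringHom_ext
      · intro r
        show MvPolynomial.aeval z (MvPolynomial.C r) = _
        rw [MvPolynomial.aeval_C, IsScalarTower.algebraMap_apply R Q K]
        rfl
      · intro n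
        show MvPolynomial.aeval z (MvPolynomial.X n) = _
        rw [MvPolynomial.aeval_X]
        rfl
    exact congrArg (fun f : MvPolynomial S R →+* K => f g) h1
  have hker : ∀ g : MvPolynomial S R, MvPolynomial.aeval z g = 0 ↔ g ∈ germ t ev := by
    intro g
    rw [hzq, map_eq_zero_iff _ (IsFractionRing.injective Q K), Ideal.Quotient.eq_zero_iff_mem]
  have hzfrac : ∀ w : K, ∃ a b : MvPolynomial S R, MvPolynomial.aeval z b ≠ 0 ∧
      w * MvPolynomial.aeval z b = MvPolynomial.aeval z a := by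
    intro w
    obtain ⟨a, b, hb, rfl⟩ := IsFractionRing.div_surjective (A := Q) w
    obtain ⟨a, rfl⟩ := Ideal.Quotient.mk_surjective a
    obtain ⟨b, rfl⟩ := Ideal.Quotient.mk_surjective b
    have hb0 : algebraMap Q K (Ideal.Quotient.mk (germ t ev) b) ≠ 0 := by
      rw [ne_eq, map_eq_zero_iff _ (IsFractionRing.injective Q K)]
      exact nonZeroDivisors.ne_zero hb
    refine ⟨a, b, ?_, ?_⟩
    · rw [hzq]; exact hb0
    · rw [hzq, hzq, div_mul_cancel₀ _ hb0]
  have : CharZero L := charZero_of_injective_algebraMap (IsFractionRing.injective R L)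
  obtain ⟨s, θ, P, hP1, hP2, hD, hG⟩ := exists_data_zero (R := R) (L := L) z hzfrac
  choose D0 Q0 hD1 hD2 using hD
  -- a common denominator
  obtain ⟨D, hDdef⟩ : ∃ D : MvPolynomial s R, D = ∏ n, D0 n := ⟨_, rfl⟩
  obtain ⟨Qn, hQn⟩ : ∃ Qn : S → (MvPolynomial s R)[X],
    Qn = fun n => Polynomial.C (∏ j ∈ Finset.univ.erase n, D0 j) * Q0 n := ⟨_, rfl⟩
  have hDne : MvPolynomial.aeval z (rn R s D) ≠ 0 := by
    rw [hDdef, map_prod, map_prod]
    exact Finset.prod_ne_zero_iff.2 fun n _ => hD1 n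
  have hDQ : ∀ n, MvPolynomial.aeval z
      (rn R s D * MvPolynomial.X n - (Qn n).eval₂ (rn R s) θ) = 0 := by
    intro n
    have h1 : rn R s D * MvPolynomial.X n - (Qn n).eval₂ (rn R s) θ =
        rn R s (∏ j ∈ Finset.univ.erase n, D0 j) *
          (rn R s (D0 n) * MvPolynomial.X n - (Q0 n).eval₂ (rn R s) θ) := by
      rw [hDdef, hQn, ← Finset.mul_prod_erase Finset.univ D0 (Finset.mem_univ n), map_mul,
        Polynomial.eval₂_mul, Polynomial.eval₂_C]
      ring
    rw [h1, map_mul, hD2 n, mul_zero]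
  -- the equations in terms of the primitive element
  obtain ⟨φ, hφ⟩ : ∃ φ : R →+* (MvPolynomial s R)[X],
    φ = Polynomial.C.comp MvPolynomial.C := ⟨_, rfl⟩
  obtain ⟨G, hGdef⟩ : ∃ G : I → (MvPolynomial s R)[X],
    G = fun a => hz φ (f a) (f a).totalDegree (Polynomial.C D) Qn := ⟨_, rfl⟩
  have hfa : ∀ a, MvPolynomial.aeval z (f a) = 0 := by
    intro a
    rw [hker]
    intro m
    have h1 : ∀ᶠ i in (hyperfilter ℕ : Filter ℕ), m ≤ i :=
      (Nat.hyperfilter_le_atTop (eventually_ge_atTop m))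
    filter_upwards [h1] with i hi
    rw [hev]
    exact (pow_dvd_pow t hi).trans (hx i a)
  obtain ⟨Ψ, hΨ⟩ : ∃ Ψ : (MvPolynomial s R)[X] →+* K, Ψ =
    ((MvPolynomial.aeval z : MvPolynomial S R →ₐ[R] K).toRingHom).comp
      (Polynomial.eval₂RingHom (rn R s) θ) := ⟨_, rfl⟩
  have hΨ' : ∀ q : (MvPolynomial s R)[X], Ψ q = MvPolynomial.aeval z (q.eval₂ (rn R s) θ) := by
    intro q
    rw [hΨ]
    rfl
  have hG0 : ∀ a, MvPolynomial.aeval z ((G a).eval₂ (rn R s) θ) = 0 := by
    intro a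
    rw [← hΨ', hGdef, map_hz, hz_eq (Ψ.comp φ) (f a) _ le_rfl _ _ z]
    · have h2 : (f a).eval₂ (Ψ.comp φ) z = MvPolynomial.aeval z (f a) := by
        rw [MvPolynomial.aeval_def]
        congr 1
        ext r
        rw [RingHom.comp_apply, hφ, RingHom.comp_apply, hΨ', Polynomial.eval₂_C]
        show MvPolynomial.aeval z (MvPolynomial.rename Subtype.val (MvPolynomial.C r)) = _
        rw [MvPolynomial.rename_C, MvPolynomial.aeval_C]
      rw [h2, hfa, mul_zero]
    · intro n
      have h3 := hDQ n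
      rw [map_sub, map_mul, MvPolynomial.aeval_X, sub_eq_zero] at h3
      rw [hΨ', hΨ', Polynomial.eval₂_C, h3]
  choose E hE1 hE2 using fun a => hG (G a) (hG0 a)
  -- choose the index
  have hne : ∀ g : MvPolynomial S R, MvPolynomial.aeval z g ≠ 0 →
      ∃ m : ℕ, ∀ᶠ i in (hyperfilter ℕ : Filter ℕ), ¬ t ^ m ∣ ev i g := by
    intro g hg
    exact (notMem_germ ev).1 fun h => hg ((hker g).2 h)
  obtain ⟨m1, hm1⟩ := hne _ hP2
  obtain ⟨m2, hm2⟩ := hne _ hDne
  choose m3 hm3 using fun a => hne _ (hE1 a)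
  obtain ⟨m0, hm0⟩ : ∃ m0, m0 = max m1 m2 := ⟨_, rfl⟩
  have e1 : ∀ᶠ i in (hyperfilter ℕ : Filter ℕ), ∀ a, ¬ t ^ m3 a ∣ ev i (rn R s (E a)) := by
    rw [eventually_all]
    exact hm3
  have e2 : ∀ᶠ i in (hyperfilter ℕ : Filter ℕ), ∀ n,
      t ^ (2 * m0 + c) ∣ ev i (rn R s D * MvPolynomial.X n - (Qn n).eval₂ (rn R s) θ) := by
    rw [eventually_all]
    exact fun n => (hker _).1 (hDQ n) _
  have e3 : ∀ᶠ i in (hyperfilter ℕ : Filter ℕ), c ≤ i :=
    (Nat.hyperfilter_le_atTop (eventually_ge_atTop c))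
  obtain ⟨i, hi1, hi2, hi3, hi4, hi5, hi6⟩ :=
    (hm1.and (hm2.and (e1.and (e2.and (e3.and ((hker _).1 hP1 (2 * m0 + c))))))).exists
  have hi1' : ¬ t ^ m0 ∣ ev i (P.derivative.eval₂ (rn R s) θ) := fun h =>
    hi1 ((pow_dvd_pow t (by rw [hm0]; exact le_max_left _ _)).trans h)
  have hi2' : ¬ t ^ m0 ∣ ev i (rn R s D) := fun h =>
    hi2 ((pow_dvd_pow t (by rw [hm0]; exact le_max_right _ _)).trans h)
  -- Newton's lemma
  obtain ⟨B, hB⟩ : ∃ B : MvPolynomial s R →+* R, B = (ev i).comp (rn R s) := ⟨_, rfl⟩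
  have hBev : ∀ q : (MvPolynomial s R)[X], ev i (q.eval₂ (rn R s) θ) = (q.map B).eval (ev i θ) := by
    intro q
    rw [hom_eval₂, eval_map, hB]
  obtain ⟨θ', hθ1, hθ2⟩ := hR.newton (P.map B) (ev i θ) m0 (2 * m0 + c)
    (by rw [derivative_map, ← hBev]; exact hi1') (by omega) (by rw [← hBev]; exact hi6)
  obtain ⟨w, hw⟩ := dvd_pow_of_not_dvd_zero hR hi2'
  have hdiv : ∀ n, t ^ (m0 + c) ∣ ev i (rn R s D) * x i n - ((Qn n).map B).eval θ' := by
    intro n
    have h1 : t ^ (m0 + c) ∣ ((Qn n).map B).eval θ' - ((Qn n).map B).eval (ev i θ) := by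
      refine dvd_trans ?_ (sub_dvd_eval_sub θ' (ev i θ) _)
      have : 2 * m0 + c - m0 = m0 + c := by omega
      rw [this] at hθ2
      exact hθ2
    have h2 : t ^ (m0 + c) ∣ ev i (rn R s D) * x i n - ((Qn n).map B).eval (ev i θ) := by
      refine (pow_dvd_pow t (by omega : m0 + c ≤ 2 * m0 + c)).trans ?_
      have h3 := hi4 n
      rw [map_sub, map_mul, hBev] at h3
      have h4 : ev i (MvPolynomial.X n) = x i n := by
        rw [hev]
        exact MvPolynomial.eval_X n
      rwa [h4] at h3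
    have h3 := dvd_sub h2 h1
    have h4 : ev i (rn R s D) * x i n - ((Qn n).map B).eval (ev i θ) -
        (((Qn n).map B).eval θ' - ((Qn n).map B).eval (ev i θ)) =
        ev i (rn R s D) * x i n - ((Qn n).map B).eval θ' := by ring
    rwa [h4] at h3
  choose r hr using hdiv
  obtain ⟨y, hy⟩ : ∃ y : S → R, y = fun n => x i n - t ^ c * (w * r n) := ⟨_, rfl⟩
  have hyD : ∀ n, ev i (rn R s D) * y n = ((Qn n).map B).eval θ' := by
    intro n
    have h1 := hr n
    rw [pow_add, hw] at h1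
    rw [hy]
    linear_combination h1
  refine ⟨i, hi5, y, ?_, ?_⟩
  · intro a
    obtain ⟨Φ, hΦ⟩ : ∃ Φ : (MvPolynomial s R)[X] →+* R, Φ = Polynomial.eval₂RingHom B θ' :=
      ⟨_, rfl⟩
    have hΦ' : ∀ q : (MvPolynomial s R)[X], Φ q = (q.map B).eval θ' := by
      intro q
      rw [hΦ, coe_eval₂RingHom, eval_map]
    have h1 : Φ (G a) = B D ^ (f a).totalDegree * MvPolynomial.eval y (f a) := by
      rw [hGdef, map_hz, hz_eq (Φ.comp φ) (f a) _ le_rfl _ _ y]
      · have h2 : Φ.comp φ = RingHom.id R := by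
          ext r
          rw [RingHom.comp_apply, hφ, RingHom.comp_apply, hΦ', map_C, eval_C, hB,
            RingHom.comp_apply, hev]
          show MvPolynomial.eval (x i) (MvPolynomial.rename Subtype.val (MvPolynomial.C r)) = _
          rw [MvPolynomial.rename_C, MvPolynomial.eval_C]
          rfl
        rw [h2, hΦ', map_C, eval_C]
        rfl
      · intro n
        rw [hΦ', hΦ', map_C, eval_C, ← hyD n, hB]
        rfl
    have h2 : Φ (Polynomial.C (E a) * G a) = 0 := by
      obtain ⟨W, hW⟩ := hE2 a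
      rw [hW, map_mul, hΦ' P, hθ1, zero_mul]
    have h3 : Φ (Polynomial.C (E a)) ≠ 0 := by
      rw [hΦ', map_C, eval_C, hB, RingHom.comp_apply]
      intro h
      apply hi3 a
      rw [h]
      exact dvd_zero _
    have h4 : B D ≠ 0 := by
      rw [hB, RingHom.comp_apply]
      intro h
      apply hi2'
      rw [h]
      exact dvd_zero _
    rw [map_mul] at h2
    have h5 := (mul_eq_zero.1 h2).resolve_left h3
    rw [h1] at h5
    exact (mul_eq_zero.1 h5).resolve_left (pow_ne_zero _ h4)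
  · intro n
    rw [hy]
    refine ⟨-(w * r n), ?_⟩
    ring

end Main

end ZC
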