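import Pool.Agent.Helper25.KK.AbsZero
import Pool.Agent.Helper25.BD.Newton
import Pool.Agent.Helper63.KK.Approx

/-!
# Greenberg's theorem for the Witt vectors over the finite subextensions (project KK, K3)
-/

set_option autoImplicit false

namespace ZC.KK

open WittVector Polynomial

universe u

section adic

variable {W : Type*} [CommRing W] {t : W}

/-- contractions of a complete ring have fixed points -/
theorem exists_fixed_adic [IsAdicComplete (Ideal.span {t}) W] (G : W → W)
    (hG : ∀ (n : ℕ) (a b : W), t ^ n ∣ a - b → t ^ (n + 1) ∣ G a - G b) : ∃ y, G y = y := by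
  obtain ⟨g, hg⟩ : ∃ g : ℕ → W, g = fun n => G^[n] 0 := ⟨_, rfl⟩
  have hg1 : ∀ n, g (n + 1) = G (g n) := by
    intro n
    rw [hg]
    exact Function.iterate_succ_apply' G n 0
  have h1 : ∀ m : ℕ, t ^ m ∣ g (m + 1) - g m := by
    intro m
    induction m with
    | zero => rw [pow_zero]; exact one_dvd _
    | succ m ih =>
      have h2 := hG m _ _ ih
      rwa [← hg1, ← hg1] at h2
  have hmod : ∀ (n : ℕ) (a b : W), a ≡ b [SMOD (Ideal.span {t} ^ n • ⊤ : Submodule W W)] ↔
      t ^ n ∣ a - b := by
    intro n a b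
    rw [SModEq.sub_mem, smul_eq_mul, Ideal.mul_top, Ideal.span_singleton_pow,
      Ideal.mem_span_singleton]
  have h2 : ∀ m n : ℕ, m ≤ n → g m ≡ g n [SMOD (Ideal.span {t} ^ m • ⊤ : Submodule W W)] := by
    intro m n hmn
    rw [hmod]
    induction n, hmn using Nat.le_induction with
    | base => rw [sub_self]; exact dvd_zero _
    | succ n hn ih =>
      have h3 : g m - g (n + 1) = (g m - g n) - (g (n + 1) - g n) := by ring
      rw [h3]
      exact dvd_sub ih ((pow_dvd_pow t hn).trans (h1 n))
  obtain ⟨y, hy⟩ := IsPrecomplete.prec' (I := Ideal.span {t}) g fun {m n} h => h2 m n h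
  refine ⟨y, ?_⟩
  rw [← sub_eq_zero]
  apply IsHausdorff.haus' (I := Ideal.span {t})
  intro n
  rw [hmod, sub_zero]
  have h3 := (hmod n _ _).1 (hy n)
  have h4 := (hmod (n + 1) _ _).1 (hy (n + 1))
  have h5 := hG n _ _ h3
  rw [← hg1] at h5
  have h6 : G y - y = (g (n + 1) - y) - (g (n + 1) - G y) := by ring
  rw [h6]
  exact (pow_dvd_pow t (Nat.le_succ n)).trans (dvd_sub h4 h5)

end adic

section field

variable {p : ℕ} [hp : Fact p.Prime] {k : Type*} [Field k] [CharP k p] [PerfectRing k p]

theorem pow_dvd_iff {n : ℕ} {x : WittVector p k} :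
    (p : WittVector p k) ^ n ∣ x ↔ ∀ m, m < n → x.coeff m = 0 := by
  rw [← Ideal.mem_span_singleton, ← mem_span_p_pow_iff_le_coeff_eq_zero]

theorem dvd_iff_coeff_zero {x : WittVector p k} : (p : WittVector p k) ∣ x ↔ x.coeff 0 = 0 := by
  rw [← Ideal.mem_span_singleton, mem_span_p_iff_coeff_zero_eq_zero]

/-- Newton's lemma for Witt vectors -/
theorem newton_W (P : (WittVector p k)[X]) (θ : WittVector p k) (m₀ m : ℕ)
    (h1 : ¬ (p : WittVector p k) ^ m₀ ∣ P.derivative.eval θ) (h2 : 2 * m₀ ≤ m)
    (h3 : (p : WittVector p k) ^ m ∣ P.eval θ) :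
    ∃ θ' : WittVector p k, P.eval θ' = 0 ∧ (p : WittVector p k) ^ (m - m₀) ∣ θ' - θ :=
  newton_of_contr (fun x hx => isUnit_of_coeff_zero_ne_zero x fun h => hx (dvd_iff_coeff_zero.2 h))
    exists_fixed_adic P θ m₀ m h1 h2 h3

omit [PerfectRing k p] in
theorem charZero_W : CharZero (WittVector p k) := by
  refine charZero_of_inj_zero fun n hn => ?_
  by_contra hn0
  obtain ⟨e, m, hm, rfl⟩ := Nat.exists_eq_pow_mul_and_not_dvd hn0 p hp.out.ne_one
  rw [Nat.cast_mul, Nat.cast_pow, mul_eq_zero] at hn
  rcases hn with h | h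
  · exact p_nonzero p k (eq_zero_of_pow_eq_zero h)
  · have h1 : (constantCoeff : WittVector p k →+* k) (m : WittVector p k) = 0 := by
      rw [h, map_zero]
    rw [map_natCast, CharP.cast_eq_zero_iff k p] at h1
    exact hm h1

end field

section WF

variable {p : ℕ} [hp : Fact p.Prime] {κ Fl : Type u} [Field κ] [Field Fl] [Algebra κ Fl]

/-- Finitely many elements have their components in one finite extension. -/
theorem exists_common_W (s : Finset (WittVector p Fl)) (hs : ∀ x ∈ s, x ∈ WF p κ Fl) :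
    ∃ E : IntermediateField κ Fl, FiniteDimensional κ E ∧ ∀ x ∈ s, ∀ n, x.coeff n ∈ E := by
  classical
  induction s using Finset.induction_on with
  | empty => exact ⟨⊥, inferInstance, by simp⟩
  | insert x s hx ih =>
    obtain ⟨E, hE, h1⟩ := ih fun y hy => hs y (Finset.mem_insert_of_mem hy)
    obtain ⟨E', hE', h2⟩ := hs x (Finset.mem_insert_self _ _)
    refine ⟨E ⊔ E', inferInstance, fun y hy => ?_⟩
    rcases Finset.mem_insert.1 hy with rfl | hy
    · exact fun n => (le_sup_right : E' ≤ E ⊔ E') (h2 n)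
    · exact fun n => (le_sup_left : E ≤ E ⊔ E') (h1 y hy n)

/-- the inclusion of the Witt vectors over a finite subextension -/
noncomputable def inclW (p : ℕ) [Fact p.Prime] (E : IntermediateField κ Fl)
    (hE : FiniteDimensional κ E) : WittVector p E →+* WF p κ Fl :=
  (WittVector.map (algebraMap E Fl)).codRestrict (WF p κ Fl) fun y => ⟨E, hE, coeff_mem E y⟩

theorem coe_inclW (E : IntermediateField κ Fl) (hE : FiniteDimensional κ E) (x : WittVector p E)
    (n : ℕ) : ((inclW p E hE x : WF p κ Fl) : WittVector p Fl).coeff n = (x.coeff n : Fl) := by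
  change (WittVector.map (algebraMap E Fl) x).coeff n = _
  rw [WittVector.map_coeff]
  rfl

theorem exists_inclW (E : IntermediateField κ Fl) (hE : FiniteDimensional κ E) (x : WF p κ Fl)
    (hx : ∀ n, (x : WittVector p Fl).coeff n ∈ E) : ∃ y, inclW p E hE y = x := by
  obtain ⟨y, hy⟩ := exists_map E hx
  exact ⟨y, Subtype.ext hy⟩

variable [Finite κ] [CharP Fl p] [PerfectRing Fl p]

omit [PerfectRing Fl p] in
theorem coe_dvd_iff {x : WF p κ Fl} {n : ℕ} :
    (p : WF p κ Fl) ^ n ∣ x ↔ (p : WittVector p Fl) ^ n ∣ (x : WittVector p Fl) := by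
  constructor
  · rintro ⟨y, rfl⟩
    refine ⟨y, ?_⟩
    push_cast
    rfl
  · exact WF_dvd

theorem inclW_dvd (E : IntermediateField κ Fl) (hE : FiniteDimensional κ E) [CharP E p]
    [PerfectRing E p] (n : ℕ) (x : WittVector p E) :
    (p : WittVector p E) ^ n ∣ x ↔ (p : WF p κ Fl) ^ n ∣ inclW p E hE x := by
  rw [coe_dvd_iff, pow_dvd_iff, pow_dvd_iff]
  refine forall_congr' fun m => imp_congr_right fun _ => ?_
  rw [coe_inclW]
  exact (ZeroMemClass.coe_eq_zero).symm

omit [Finite κ] [PerfectRing Fl p] in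
theorem unit_WF {x : WF p κ Fl} (hx : (x : WittVector p Fl).coeff 0 ≠ 0) : IsUnit x := by
  obtain ⟨E, hE, hxE⟩ := x.2
  have hcE : CharP E p := (algebraMap E Fl).charP (algebraMap E Fl).injective p
  obtain ⟨y, hy⟩ := exists_inclW E hE x hxE
  rw [← hy]
  apply IsUnit.map
  apply isUnit_of_coeff_zero_ne_zero
  intro h
  apply hx
  rw [← hy, coe_inclW, h]
  rfl

/-- the axioms for the Witt vectors -/
theorem newtonRing_WF : NewtonRingZero (p : WF p κ Fl) where
  prime := by
    have h0 : ∀ x : WF p κ Fl, (p : WF p κ Fl) ∣ x ↔ (x : WittVector p Fl).coeff 0 = 0 := by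
      intro x
      have h1 := coe_dvd_iff (x := x) (n := 1)
      rw [pow_one, pow_one] at h1
      rw [h1, dvd_iff_coeff_zero]
    refine ⟨?_, ?_, ?_⟩
    · intro h
      apply p_nonzero p Fl
      have h1 := congrArg (Subring.subtype (WF p κ Fl)) h
      rwa [map_natCast, map_zero] at h1
    · intro h
      have h1 := (h0 1).1 h.dvd
      rw [OneMemClass.coe_one, one_coeff_zero] at h1
      exact one_ne_zero h1
    · intro a b hab
      rw [h0] at hab ⊢
      rw [h0]
      rw [MulMemClass.coe_mul, WittVector.mul_coeff_zero] at hab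
      exact mul_eq_zero.1 hab
  sep := by
    intro x hx
    apply Subtype.ext
    ext n
    have h1 := pow_dvd_iff.1 (coe_dvd_iff.1 (hx (n + 1))) n (Nat.lt_succ_self n)
    rw [h1, ZeroMemClass.coe_zero, zero_coeff]
  unit := by
    intro x hx
    apply unit_WF
    intro h
    apply hx
    have h1 := coe_dvd_iff (x := x) (n := 1)
    rw [pow_one, pow_one] at h1
    rw [h1, dvd_iff_coeff_zero]
    exact h
  newton := by
    classical
    intro P θ m₀ m h1 h2 h3
    obtain ⟨E, hE, hEs⟩ := exists_common_W (κ := κ)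
      (insert (θ : WittVector p Fl) ((Finset.range (P.natDegree + 1)).image fun n =>
        ((P.coeff n : WF p κ Fl) : WittVector p Fl))) (by
      intro x hx
      rcases Finset.mem_insert.1 hx with rfl | hx
      · exact θ.2
      · obtain ⟨n, -, rfl⟩ := Finset.mem_image.1 hx
        exact (P.coeff n).2)
    have hfin : Finite E := Module.finite_of_finite κ
    have hcE : CharP E p := (algebraMap E Fl).charP (algebraMap E Fl).injective p
    have hexp : ExpChar E p := ExpChar.prime hp.out
    have hperf : PerfectRing E p := PerfectRing.ofFiniteOfIsReduced p E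
    obtain ⟨j, hj⟩ : ∃ j : WittVector p E →+* WF p κ Fl, j = inclW p E hE := ⟨_, rfl⟩
    have hjdvd : ∀ (n : ℕ) (x : WittVector p E), (p : WittVector p E) ^ n ∣ x ↔
        (p : WF p κ Fl) ^ n ∣ j x := by
      intro n x
      rw [hj]
      exact inclW_dvd E hE n x
    obtain ⟨θ₀, hθ₀⟩ : ∃ θ₀ : WittVector p E, j θ₀ = θ := by
      rw [hj]
      exact exists_inclW E hE θ (hEs _ (Finset.mem_insert_self _ _))
    obtain ⟨P₀, hP₀⟩ : ∃ P₀ : (WittVector p E)[X], P₀.map j = P := by
      have h4 : P ∈ Polynomial.lifts j := by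
        rw [Polynomial.lifts_iff_coeff_lifts]
        intro n
        by_cases hn : n ≤ P.natDegree
        · rw [hj]
          exact exists_inclW E hE _ (hEs _ (Finset.mem_insert_of_mem (Finset.mem_image.2
            ⟨n, Finset.mem_range.2 (by omega), rfl⟩)))
        · rw [Polynomial.coeff_eq_zero_of_natDegree_lt (by omega)]
          exact ⟨0, map_zero _⟩
      exact (Polynomial.mem_lifts P).1 h4
    have hev : ∀ (Q : (WittVector p E)[X]) (x : WittVector p E),
        (Q.map j).eval (j x) = j (Q.eval x) := by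
      intro Q x
      rw [eval_map, eval₂_hom]
    rw [← hP₀, ← hθ₀, derivative_map, hev, ← hjdvd] at h1
    rw [← hP₀, ← hθ₀, hev, ← hjdvd] at h3
    obtain ⟨θ', h5, h6⟩ := newton_W P₀ θ₀ m₀ m h1 h2 h3
    refine ⟨j θ', ?_, ?_⟩
    · rw [← hP₀, hev, h5, map_zero]
    · rw [← hθ₀, ← map_sub, ← hjdvd]
      exact h6

end WF

/-- **Greenberg's theorem** for the Witt vectors over the finite subextensions. -/
theorem greenberg_W (p : ℕ) [hp : Fact p.Prime] (κ Fl : Type u) [Field κ] [Field Fl]
    [Algebra κ Fl] [Finite κ] [CharP κ p] [Algebra.IsAlgebraic κ Fl] : GreenbergW p κ Fl := by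
  have hc : CharP Fl p := charP_of_injective_algebraMap (algebraMap κ Fl).injective p
  have hexp : ExpChar Fl p := ExpChar.prime hp.out
  have hexp' : ExpChar κ p := ExpChar.prime hp.out
  have hperf' : PerfectRing κ p := PerfectRing.ofFiniteOfIsReduced p κ
  have hperf0 : PerfectField κ := inferInstance
  have hperf1 : PerfectField Fl := Algebra.IsAlgebraic.perfectField (K := κ)
  have hperf : PerfectRing Fl p := PerfectField.toPerfectRing p
  have hdom : IsDomain (WF p κ Fl) := inferInstance
  have hz : CharZero (WittVector p Fl) := charZero_W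
  have hz' : CharZero (WF p κ Fl) := by
    refine charZero_of_inj_zero fun n hn => ?_
    have h1 := congrArg (Subring.subtype (WF p κ Fl)) hn
    rw [map_natCast, map_zero] at h1
    exact Nat.cast_eq_zero.1 h1
  intro ι σ _ _ f x hx c
  exact greenberg_abs_zero newtonRing_WF f x hx c

end ZC.KK
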